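import Pool.Agent.MP_3d0a02_nt.E.Final

/-!
Three `k`-th powers summing to a `k`-th power, `k` even: divisibility of two terms.
-/

theorem Pool.Agent.Results.MP_3d0a02_nt.EvenThree.result :
    ∀ k v : ℕ, 6 ≤ k → 1 ≤ v → 2 ^ v ∣ k → ∀ (x : Fin 3 → ℕ) (w : ℕ), (∀ i, 0 < x i) →
      ∑ i, x i ^ k = w ^ k →
      ∃ i, ∀ j, j ≠ i → 2 ^ v ∣ x j ∧
        (∀ l : ℕ, l.Prime → l ∣ k → l % 2 ^ (v + 1) ≠ 1 → l ∣ x j) ∧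
        ((∀ D : ℕ, D ∣ k → D % 2 ^ (v + 1) ≠ 2 ^ v + 1) → 2 ^ (v + 1) ∣ x j) :=
  fun _ _ hk hv hvk x w hx h => (Pool.Agent.MP_3d0a02_nt.E.fin_three hk hv hvk x w hx h).1
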