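import Pool.Agent.MP_3d0a02_nt.R.All
import Pool.Agent.MP_3d0a02_nt.R.Main

/-!
A lower bound `exp (k ^ c)` for short sums of `k`-th powers that are `k`-th powers.
-/

theorem Pool.Agent.Results.MP_3d0a02_nt.SizeBound.result :
    ∃ c : ℝ, 0 < c ∧ ∃ k₀ : ℕ, ∀ k : ℕ, k₀ ≤ k →
      ∀ p j : ℕ, p.Prime → Nat.totient (p ^ j) ∣ k → ∀ n : ℕ, 2 ≤ n → n < p ^ j →
      ∀ (a : Fin n → ℕ) (b : ℕ), (∀ i, 0 < a i) → ∑ i, a i ^ k = b ^ k →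
      Real.exp ((k : ℝ) ^ c) ≤ b :=
  Pool.Agent.MP_3d0a02_nt.R.size_bound Pool.Agent.MP_3d0a02_nt.R.valr
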